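import Pool.Agent.R395.Fin

/-!
# The Atkin-Swinnerton-Dyer congruences for `E_k / (j - j(C))^r` are false for primes `p ≤ k - 1`

The conjecture (Q1): for `k ∈ {4, 6, 8, 10, 14}`, `1 ≤ r ≤ k - 1`, an elliptic curve `C / ℚ` with `j(C) ≠ 0, 1728` and
a prime `p` of good reduction with `v_p(j(C)) = 0 = v_p(j(C) - 1728)`,
`∑_{i<k} c_{p,i} a_{n p^(l-i)} ≡ 0 mod p^((k-1) l - (k-3) k / 2 - r)` for all `n, l ≥ 1`.

We show that this fails for `k = 6`, `r = 1`, the curve `C : y² + y = x³ - x` of conductor `37` (`j(C) = 110592 / 37`,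
`Δ = 37`), `p = 5`, `n = 1`, `l = 5`: the left side has `5`-adic valuation `14`, the conjecture predicts at least `15`.
So the conjecture is false even if it is restricted to primes `p ≥ 5` and to `l ≥ k - 1`.

Reason: near the canonical lift the coefficients `a_{n p^l}` are expansions in powers of `p^l λ`, `λ` the logarithm of
the Serre-Tate parameter; the operator `∑ c_{p,i} (l ↦ l - i)` kills the powers `j ≤ k - 2` and the first remaining one is
`(p^l λ)^(k-1) / (k-1)!`, so that a power of `p` is lost as soon as `p ≤ k - 1`. (This explanation is not used.)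

Proof: the first `4096` coefficients of `E_6 / (j - j(C))` modulo `5^15` are computed in the kernel, as quotient of two
series packed into natural numbers (Kronecker substitution).
-/

set_option autoImplicit false

namespace Pool.Agent.Results.MP_fb382b_nt.FalseAtFive

open Finset

/-- The normalised Eisenstein series `E_k = 1 - (2k/B_k) ∑ σ_{k-1}(n) q^n` as a formal power series. -/
noncomputable def E (k : ℕ) : PowerSeries ℚ :=
  PowerSeries.mk fun n => if n = 0 then 1 else -(2 * k / bernoulli k) * (ArithmeticFunction.sigma (k - 1) n : ℕ)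

/-- `Δ = (E_4³ - E_6²) / 1728`, as a formal Laurent series -/
noncomputable def Delta : LaurentSeries ℚ := ((E 4 : LaurentSeries ℚ) ^ 3 - (E 6 : LaurentSeries ℚ) ^ 2) / 1728

/-- `j = E_4³ / Δ = q⁻¹ + 744 + ⋯`, as a formal Laurent series -/
noncomputable def j : LaurentSeries ℚ := (E 4 : LaurentSeries ℚ) ^ 3 / Delta

/-- `F = E_k / (j - x)^r` for a rational number `x`, as a formal Laurent series -/
noncomputable def F (k r : ℕ) (x : ℚ) : LaurentSeries ℚ := (E k : LaurentSeries ℚ) / (j - HahnSeries.C x) ^ r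

/-- the coefficient `a_m(F)` of `q^m` -/
noncomputable def a (k r : ℕ) (x : ℚ) (m : ℕ) : ℚ := (F k r x).coeff m

/-- the `j`-invariant `c₄³ / Δ` of a Weierstrass equation with integer coefficients -/
def jInv (W : WeierstrassCurve ℤ) : ℚ := (W.c₄ : ℚ) ^ 3 / (W.Δ : ℚ)

/-- `a_p(C) = p + 1 - #C(𝔽_p)`; the points are the affine solutions modulo `p` and the point at infinity. (For a
Weierstrass equation with `p ∤ Δ` this is the trace of Frobenius of the curve with good reduction.) -/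
noncomputable def trace (W : WeierstrassCurve ℤ) (p : ℕ) : ℤ :=
  p + 1 - (1 + {P : ZMod p × ZMod p | P.2 ^ 2 + W.a₁ * P.1 * P.2 + W.a₃ * P.2 =
    P.1 ^ 3 + W.a₂ * P.1 ^ 2 + W.a₄ * P.1 + W.a₆}.ncard : ℕ)

/-- `c` is the sequence of the coefficients `c_{p,i}` of
`∏_{i ≤ k-2} (X - α^(k-2-i) β^i) = ∑_{i ≤ k-1} c_{p,i} X^(k-1-i)`, where `α, β` are the roots of `X² - t X + p`. -/
def IsCoeff (k : ℕ) (t : ℤ) (p : ℕ) (c : ℕ → ℤ) : Prop :=
  ∃ α β : ℂ, α + β = t ∧ α * β = p ∧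
    ∏ i ∈ range (k - 1), (Polynomial.X - Polynomial.C (α ^ (k - 2 - i) * β ^ i)) =
      ∑ i ∈ range k, Polynomial.C ((c i : ℤ) : ℂ) * Polynomial.X ^ (k - 1 - i)

/-- the left side `∑_{i=0}^{k-1} c_i a_{n p^(l-i)}`, where `a_m = 0` if `m` is not an integer -/
noncomputable def lhs (k r : ℕ) (x : ℚ) (p : ℕ) (c : ℕ → ℤ) (n l : ℕ) : ℚ :=
  ∑ i ∈ range k, (c i : ℚ) * (if p ^ i ∣ n * p ^ l then a k r x (n * p ^ l / p ^ i) else 0)

/-- the exponent `(k-1) l - (k-3) k / 2 - r` of the conjecture -/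
def expo (k r l : ℕ) : ℤ := ((k : ℤ) - 1) * l - ((k : ℤ) - 3) * k / 2 - r

open Pool.Agent.R395.Kron in
lemma E4_eq : E 4 = PowerSeries.map (Int.castRingHom ℚ) P4 := by
  ext n
  have hb : bernoulli 4 = -1 / 30 := by
    rw [bernoulli_eq_bernoulli'_of_ne_one (by norm_num), bernoulli'_four]
  rw [E, P4, PowerSeries.coeff_map, PowerSeries.coeff_mk, PowerSeries.coeff_mk, hb]
  split_ifs
  · simp
  · push_cast
    norm_num

lemma b5 : bernoulli' 5 = 0 := bernoulli'_eq_zero_of_odd (by decide) (by norm_num)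

lemma b6 : bernoulli' 6 = 1 / 42 := by
  rw [bernoulli'_def]
  simp only [sum_range_succ, sum_range_zero, bernoulli'_zero, bernoulli'_one, bernoulli'_two, bernoulli'_three,
    bernoulli'_four, b5]
  norm_num [Nat.choose]

open Pool.Agent.R395.Kron in
lemma E6_eq : E 6 = PowerSeries.map (Int.castRingHom ℚ) P6 := by
  ext n
  have hb : bernoulli 6 = 1 / 42 := by
    rw [bernoulli_eq_bernoulli'_of_ne_one (by norm_num), b6]
  rw [E, P6, PowerSeries.coeff_map, PowerSeries.coeff_mk, PowerSeries.coeff_mk, hb]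
  split_ifs
  · simp
  · push_cast
    norm_num

open Pool.Agent.R395.Kron

/-- integer series over `ℚ` -/
noncomputable def mq : PowerSeries ℤ →+* PowerSeries ℚ := PowerSeries.map (Int.castRingHom ℚ)

/-- `ℚ[[q]] → ℚ((q))` -/
noncomputable def io : PowerSeries ℚ →+* LaurentSeries ℚ := HahnSeries.ofPowerSeries ℤ ℚ

lemma io_inj : Function.Injective io := HahnSeries.ofPowerSeries_injective

lemma io_apply (f : PowerSeries ℚ) : io f = (f : LaurentSeries ℚ) := rfl

lemma coeffQ (f : PowerSeries ℤ) (n : ℕ) : PowerSeries.coeff n (mq f) = (PowerSeries.coeff n f : ℤ) := by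
  rw [mq, PowerSeries.coeff_map]; simp

lemma diff_ne : io (mq (P4 ^ 3 - P6 ^ 2)) ≠ 0 := by
  rw [Ne, map_eq_zero_iff io io_inj]
  intro h
  have h1 : PowerSeries.coeff 1 (P4 ^ 3 - P6 ^ 2) = 1728 := by
    have c1 : ∀ f g : PowerSeries ℤ, PowerSeries.coeff 1 (f * g) =
        PowerSeries.coeff 0 f * PowerSeries.coeff 1 g + PowerSeries.coeff 1 f * PowerSeries.coeff 0 g := by
      intro f g
      rw [PowerSeries.coeff_mul, Nat.antidiagonal_succ]
      simp
    have c0 : ∀ f g : PowerSeries ℤ, PowerSeries.coeff 0 (f * g) =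
        PowerSeries.coeff 0 f * PowerSeries.coeff 0 g := by
      intro f g
      simp
    have a0 : PowerSeries.coeff 0 P4 = 1 := by rw [P4, PowerSeries.coeff_mk, if_pos rfl]
    have b0 : PowerSeries.coeff 0 P6 = 1 := by rw [P6, PowerSeries.coeff_mk, if_pos rfl]
    have a1 : PowerSeries.coeff 1 P4 = 240 := by rw [P4, PowerSeries.coeff_mk, if_neg one_ne_zero]; simp
    have b1 : PowerSeries.coeff 1 P6 = -504 := by rw [P6, PowerSeries.coeff_mk, if_neg one_ne_zero]; simp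
    rw [map_sub, pow_succ, pow_two, pow_two, c1, c1, c1, c0, a0, b0, a1, b1]
    norm_num
  have h2 := congrArg (PowerSeries.coeff 1) h
  rw [coeffQ, h1] at h2
  norm_num at h2

lemma const_ne : PowerSeries.constantCoeff (mq Dn) ≠ 0 := by
  rw [← PowerSeries.coeff_zero_eq_constantCoeff_apply, coeffQ, PowerSeries.coeff_zero_eq_constantCoeff_apply, const_Dn]
  norm_num

lemma Dn_ne : io (mq Dn) ≠ 0 := by
  rw [Ne, map_eq_zero_iff io io_inj]
  intro h
  exact const_ne (by rw [h, map_zero])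

/-- `F = E_6 / (j - 110592 / 37)` is the quotient of two integral power series -/
lemma F_mul : F 6 1 (110592 / 37) * io (mq Dn) = io (mq Nm) := by
  have e4 : (E 4 : LaurentSeries ℚ) = io (mq P4) := by rw [E4_eq]; rfl
  have e6 : (E 6 : LaurentSeries ℚ) = io (mq P6) := by rw [E6_eq]; rfl
  have hC : (HahnSeries.C (110592 / 37 : ℚ) : LaurentSeries ℚ) = 110592 / 37 := by
    rw [map_div₀, map_ofNat, map_ofNat]
  have hd : io (mq Dn) = 110592 * io (mq P6) ^ 2 - 46656 * io (mq P4) ^ 3 := by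
    rw [Dn, map_sub, map_sub, map_mul, map_mul, map_mul, map_mul, map_pow, map_pow, map_pow, map_pow, map_ofNat,
      map_ofNat, map_ofNat, map_ofNat]
  have hn : io (mq Nm) = io (mq P6) * (37 * io (mq P4) ^ 3 - 37 * io (mq P6) ^ 2) := by
    rw [Nm, map_mul, map_mul, map_sub, map_sub, map_mul, map_mul, map_mul, map_mul, map_pow, map_pow, map_pow,
      map_pow, map_ofNat, map_ofNat]
  have hdf : io (mq (P4 ^ 3 - P6 ^ 2)) = io (mq P4) ^ 3 - io (mq P6) ^ 2 := by
    rw [map_sub, map_sub, map_pow, map_pow, map_pow, map_pow]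
  have h1 := diff_ne
  rw [hdf] at h1
  have h2 := Dn_ne
  rw [hd] at h2
  rw [F, j, Delta, e4, e6, hC, hd, hn, pow_one]
  set x := io (mq P4)
  set y := io (mq P6)
  have h37 : (37 : LaurentSeries ℚ) ≠ 0 := by
    rw [← map_ofNat (HahnSeries.C (Γ := ℤ) (R := ℚ)) 37, Ne, map_eq_zero_iff _ HahnSeries.C_injective]
    norm_num
  have h1728 : (1728 : LaurentSeries ℚ) ≠ 0 := by
    rw [← map_ofNat (HahnSeries.C (Γ := ℤ) (R := ℚ)) 1728, Ne, map_eq_zero_iff _ HahnSeries.C_injective]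
    norm_num
  have h3 : x ^ 3 / ((x ^ 3 - y ^ 2) / 1728) - 110592 / 37 = (110592 * y ^ 2 - 46656 * x ^ 3) / (37 * (x ^ 3 - y ^ 2)) := by
    field_simp
    ring
  rw [h3, div_div_eq_mul_div, div_mul_cancel₀ _ h2]
  ring

/-- the coefficients are `5`-integral -/
lemma a_eq {Fz : PowerSeries ℤ_[5]} (h : Fz * mz Dn = mz Nm) (n : ℕ) :
    ((a 6 1 (110592 / 37) n : ℚ) : ℚ_[5]) = ((PowerSeries.coeff n Fz : ℤ_[5]) : ℚ_[5]) := by
  have h1 : F 6 1 (110592 / 37) = io (mq Nm * (mq Dn)⁻¹) := by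
    have h2 : io (mq Nm * (mq Dn)⁻¹) * io (mq Dn) = io (mq Nm) := by
      rw [← map_mul, mul_assoc, PowerSeries.inv_mul_cancel _ const_ne, mul_one]
    exact mul_right_cancel₀ Dn_ne (F_mul.trans h2.symm)
  have h3 : a 6 1 (110592 / 37) n = PowerSeries.coeff n (mq Nm * (mq Dn)⁻¹) := by
    rw [a, h1, io_apply]
    exact LaurentSeries.coeff_coe_powerSeries _ _
  rw [h3]
  let q5 : ℚ →+* ℚ_[5] := Rat.castHom ℚ_[5]
  let z5 : ℤ_[5] →+* ℚ_[5] := PadicInt.Coe.ringHom
  have e1 : ∀ f : PowerSeries ℤ, PowerSeries.map q5 (mq f) = PowerSeries.map (Int.castRingHom ℚ_[5]) f := by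
    intro f
    ext m
    rw [PowerSeries.coeff_map, coeffQ, PowerSeries.coeff_map]
    simp [q5]
  have e2 : ∀ f : PowerSeries ℤ, PowerSeries.map z5 (mz f) = PowerSeries.map (Int.castRingHom ℚ_[5]) f := by
    intro f
    ext m
    rw [PowerSeries.coeff_map, mz, PowerSeries.coeff_map, PowerSeries.coeff_map]
    simp [z5]
  have h4 : PowerSeries.map q5 (mq Nm * (mq Dn)⁻¹) * PowerSeries.map (Int.castRingHom ℚ_[5]) Dn =
      PowerSeries.map (Int.castRingHom ℚ_[5]) Nm := by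
    rw [← e1, ← e1, ← map_mul, mul_assoc, PowerSeries.inv_mul_cancel _ const_ne, mul_one]
  have h5 : PowerSeries.map z5 Fz * PowerSeries.map (Int.castRingHom ℚ_[5]) Dn =
      PowerSeries.map (Int.castRingHom ℚ_[5]) Nm := by
    rw [← e2, ← e2, ← map_mul, h]
  have h6 : PowerSeries.map (Int.castRingHom ℚ_[5]) Dn ≠ 0 := by
    rw [← e1, Ne, map_eq_zero_iff _ (PowerSeries.map_injective _ q5.injective)]
    intro h7
    exact const_ne (by rw [h7, map_zero])
  have h7 := mul_right_cancel₀ h6 (h4.trans h5.symm)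
  have h8 := congrArg (PowerSeries.coeff n) h7
  rw [PowerSeries.coeff_map, PowerSeries.coeff_map] at h8
  exact h8

/-- the curve `y² + y = x³ - x` -/
def W37 : WeierstrassCurve ℤ := ⟨0, 0, 1, -1, 0⟩

lemma W37_Δ : W37.Δ = 37 := by
  simp only [W37, WeierstrassCurve.Δ, WeierstrassCurve.b₂, WeierstrassCurve.b₄, WeierstrassCurve.b₆,
    WeierstrassCurve.b₈]
  norm_num

lemma W37_c₄ : W37.c₄ = 48 := by
  simp only [W37, WeierstrassCurve.c₄, WeierstrassCurve.b₂, WeierstrassCurve.b₄]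
  norm_num

lemma W37_j : jInv W37 = 110592 / 37 := by
  rw [jInv, W37_Δ, W37_c₄]
  norm_num

lemma W37_trace : trace W37 5 = -2 := by
  have h : {P : ZMod 5 × ZMod 5 | P.2 ^ 2 + W37.a₁ * P.1 * P.2 + W37.a₃ * P.2 =
      P.1 ^ 3 + W37.a₂ * P.1 ^ 2 + W37.a₄ * P.1 + W37.a₆}.ncard = 7 := by
    rw [Set.ncard_eq_toFinset_card']
    simp only [W37]
    decide
  rw [trace, h]
  norm_num

/-- the coefficients `c_{5,i}` for `k = 6`, `a_5 = -2` -/
def cc : ℕ → ℤ
  | 0 => 1
  | 1 => 19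
  | 2 => 570
  | 3 => -14250
  | 4 => -296875
  | _ => -9765625

lemma isCoeff : IsCoeff 6 (-2) 5 cc := by
  have hI : Complex.I ^ 2 = -1 := Complex.I_sq
  refine ⟨-1 + 2 * Complex.I, -1 - 2 * Complex.I, by push_cast; ring, by push_cast; linear_combination (-4) * hI, ?_⟩
  set α : ℂ := -1 + 2 * Complex.I with hα
  set β : ℂ := -1 - 2 * Complex.I with hβ
  have h1 : α ^ 4 + β ^ 4 = -14 := by
    rw [hα, hβ]; linear_combination (32 * Complex.I ^ 2 + 16) * hI
  have h2 : α ^ 4 * β ^ 4 = 625 := by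
    have : α * β = 5 := by rw [hα, hβ]; linear_combination (-4) * hI
    rw [← mul_pow, this]; norm_num
  have h3 : α ^ 3 * β + α * β ^ 3 = -30 := by
    rw [hα, hβ]; linear_combination (-32 * Complex.I ^ 2 + 32) * hI
  have h4 : (α ^ 3 * β) * (α * β ^ 3) = 625 := by
    have : α * β = 5 := by rw [hα, hβ]; linear_combination (-4) * hI
    have e : (α ^ 3 * β) * (α * β ^ 3) = (α * β) ^ 4 := by ring
    rw [e, this]; norm_num
  have h5 : α ^ 2 * β ^ 2 = 25 := by
    have : α * β = 5 := by rw [hα, hβ]; linear_combination (-4) * hI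
    rw [← mul_pow, this]; norm_num
  have key : ∀ x y s t : ℂ, x + y = s → x * y = t →
      (Polynomial.X - Polynomial.C x) * (Polynomial.X - Polynomial.C y) =
        Polynomial.X ^ 2 - Polynomial.C s * Polynomial.X + Polynomial.C t := by
    intro x y s t hs ht
    rw [← hs, ← ht, map_add, map_mul]
    ring
  have hp : ∏ i ∈ range (6 - 1), (Polynomial.X - Polynomial.C (α ^ (6 - 2 - i) * β ^ i)) =
      ((Polynomial.X - Polynomial.C (α ^ 4)) * (Polynomial.X - Polynomial.C (β ^ 4))) *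
      ((Polynomial.X - Polynomial.C (α ^ 3 * β)) * (Polynomial.X - Polynomial.C (α * β ^ 3))) *
      (Polynomial.X - Polynomial.C (α ^ 2 * β ^ 2)) := by
    simp only [prod_range_succ, prod_range_zero]
    norm_num
    ring
  rw [hp, key _ _ _ _ h1 h2, key _ _ _ _ h3 h4, h5]
  simp only [sum_range_succ, sum_range_zero, cc]
  simp only [map_neg, Int.cast_neg, Int.cast_ofNat, Int.cast_one, map_ofNat, map_one]
  norm_num
  ring

lemma dvd_ifs (i : ℕ) (hi : i < 6) (x : ℕ → ℚ) :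
    (if 5 ^ i ∣ 1 * 5 ^ 5 then x (1 * 5 ^ 5 / 5 ^ i) else 0) = x (5 ^ (5 - i)) := by
  have h1 : 5 ^ i ∣ 1 * 5 ^ 5 := by rw [one_mul]; exact pow_dvd_pow 5 (by omega)
  rw [if_pos h1, one_mul, Nat.pow_div (by omega) (by norm_num)]

lemma lhs_eq : lhs 6 1 (110592 / 37) 5 cc 1 5 = ∑ i ∈ range 6, (cc i : ℚ) * a 6 1 (110592 / 37) (5 ^ (5 - i)) := by
  rw [lhs]
  refine sum_congr rfl fun i hi => ?_
  rw [dvd_ifs i (mem_range.1 hi) (fun m => a 6 1 (110592 / 37) m)]

lemma val_lt : lhs 6 1 (110592 / 37) 5 cc 1 5 ≠ 0 ∧ padicValRat 5 (lhs 6 1 (110592 / 37) 5 cc 1 5) < 15 := by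
  obtain ⟨Fz, hFz⟩ := exists_Fz
  set x : ℤ_[5] := ∑ i ∈ range 6, ((cc i : ℤ) : ℤ_[5]) * PowerSeries.coeff (5 ^ (5 - i)) Fz with hx
  have h1 : ((lhs 6 1 (110592 / 37) 5 cc 1 5 : ℚ) : ℚ_[5]) = (x : ℚ_[5]) := by
    rw [lhs_eq, hx]
    have e : ∀ y : ℤ_[5], (y : ℚ_[5]) = PadicInt.Coe.ringHom y := fun y => rfl
    rw [e, map_sum, Rat.cast_sum]
    refine sum_congr rfl fun i _ => ?_
    rw [Rat.cast_mul, a_eq hFz, map_mul, ← e, Rat.cast_intCast]
    congr 1
  have h2 : rz x = 6103515625 := by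
    rw [hx, map_sum]
    simp only [map_mul, map_intCast, sum_range_succ, sum_range_zero, zero_add, Nat.sub_zero]
    rw [coeff_Fz hFz _ (by norm_num), coeff_Fz hFz _ (by norm_num), coeff_Fz hFz _ (by norm_num),
      coeff_Fz hFz _ (by norm_num), coeff_Fz hFz _ (by norm_num), coeff_Fz hFz _ (by norm_num)]
    have f0 : 5 ^ (5 - 5) = 1 := by norm_num
    have f1 : 5 ^ (5 - 4) = 5 := by norm_num
    have f2 : 5 ^ (5 - 3) = 25 := by norm_num
    have f3 : 5 ^ (5 - 2) = 125 := by norm_num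
    have f4 : 5 ^ (5 - 1) = 625 := by norm_num
    have f5 : 5 ^ 5 = 3125 := by norm_num
    rw [f0, f1, f2, f3, f4, f5, g0, g1, g2, g3, g4, g5]
    simp only [cc]
    decide +kernel
  have h3 : ¬ ‖x‖ ≤ (5 : ℝ) ^ (-(15 : ℕ) : ℤ) := by
    intro h
    have h4 := (PadicInt.norm_le_pow_iff_mem_span_pow (p := 5) x 15).1 (by exact_mod_cast h)
    rw [← PadicInt.ker_toZModPow, RingHom.mem_ker] at h4
    have h5 : rz x = 0 := h4
    rw [h2] at h5
    exact absurd h5 (by decide +kernel)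
  have h4 : ‖x‖ = (padicNorm 5 (lhs 6 1 (110592 / 37) 5 cc 1 5) : ℝ) := by
    rw [PadicInt.norm_def, ← h1, Padic.eq_padicNorm]
  have h5 : lhs 6 1 (110592 / 37) 5 cc 1 5 ≠ 0 := by
    intro h
    apply h3
    rw [h4, h, padicNorm.zero, Rat.cast_zero]
    positivity
  refine ⟨h5, ?_⟩
  by_contra h6
  push Not at h6
  apply h3
  rw [h4, padicNorm.eq_zpow_of_nonzero h5]
  push_cast
  exact zpow_le_zpow_right₀ (by norm_num) (by omega)

/-- The congruence of Q1 fails for some `k`, `r`, `C`, a good prime `p ≥ 5`, some `n ≥ 1` and some `l ≥ k - 1`: the left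
side is nonzero and its `p`-adic valuation is smaller than the exponent of the conjecture. -/
theorem result :
    ∃ k ∈ ({4, 6, 8, 10, 14} : Finset ℕ), ∃ r : ℕ, 1 ≤ r ∧ r ≤ k - 1 ∧
    ∃ W : WeierstrassCurve ℤ, W.Δ ≠ 0 ∧ jInv W ≠ 0 ∧ jInv W ≠ 1728 ∧
    ∃ p : ℕ, p.Prime ∧ 5 ≤ p ∧ ¬ (p : ℤ) ∣ W.Δ ∧ padicValRat p (jInv W) = 0 ∧ padicValRat p (jInv W - 1728) = 0 ∧
    ∃ c : ℕ → ℤ, IsCoeff k (trace W p) p c ∧
    ∃ n l : ℕ, 1 ≤ n ∧ k - 1 ≤ l ∧ lhs k r (jInv W) p c n l ≠ 0 ∧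
      padicValRat p (lhs k r (jInv W) p c n l) < expo k r l := by
  refine ⟨6, by simp, 1, le_refl _, by norm_num, W37, by rw [W37_Δ]; norm_num, by rw [W37_j]; norm_num,
    by rw [W37_j]; norm_num, 5, by norm_num, le_refl _, by rw [W37_Δ]; norm_num, ?_, ?_, cc, ?_, 1, 5, le_refl _,
    le_refl _, ?_⟩
  · rw [W37_j]
    have h1 : padicValRat 5 (110592 / 37 : ℚ) = padicValRat 5 (110592 : ℚ) - padicValRat 5 (37 : ℚ) :=
      padicValRat.div (by norm_num) (by norm_num)
    have h2 : padicValRat 5 (110592 : ℚ) = ((padicValNat 5 110592 : ℕ) : ℤ) := by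
      exact_mod_cast padicValRat.of_nat (p := 5) (n := 110592)
    have h3 : padicValRat 5 (37 : ℚ) = ((padicValNat 5 37 : ℕ) : ℤ) := by
      exact_mod_cast padicValRat.of_nat (p := 5) (n := 37)
    rw [h1, h2, h3, padicValNat.eq_zero_of_not_dvd (by norm_num), padicValNat.eq_zero_of_not_dvd (by norm_num)]
    norm_num
  · rw [W37_j]
    have h0 : (110592 / 37 - 1728 : ℚ) = 46656 / 37 := by norm_num
    rw [h0]
    have h1 : padicValRat 5 (46656 / 37 : ℚ) = padicValRat 5 (46656 : ℚ) - padicValRat 5 (37 : ℚ) :=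
      padicValRat.div (by norm_num) (by norm_num)
    have h2 : padicValRat 5 (46656 : ℚ) = ((padicValNat 5 46656 : ℕ) : ℤ) := by
      exact_mod_cast padicValRat.of_nat (p := 5) (n := 46656)
    have h3 : padicValRat 5 (37 : ℚ) = ((padicValNat 5 37 : ℕ) : ℤ) := by
      exact_mod_cast padicValRat.of_nat (p := 5) (n := 37)
    rw [h1, h2, h3, padicValNat.eq_zero_of_not_dvd (by norm_num), padicValNat.eq_zero_of_not_dvd (by norm_num)]
    norm_num
  · rw [W37_trace]
    exact isCoeff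
  · rw [W37_j]
    have h1 : expo 6 1 5 = 15 := by rw [expo]; norm_num
    rw [h1]
    exact val_lt

end Pool.Agent.Results.MP_fb382b_nt.FalseAtFive
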